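import Pool.Agent.H439R3.Ap.Final

/-!
# Generalized Apéry numbers in the region `s < 2 r` (MP_6026f4_co)

`a_n(r,s) = ∑_k C(n,k)^r C(n+k,k)^s`. For `s < 2 r` the sequence is a Stieltjes moment sequence at
most for `(r,s) = (1,1)` and `(2,2)`; for `r ≥ 3`, `s ≤ 2 r` it is moreover not infinitely
log-convex (two pairs excepted).
-/

set_option autoImplicit false

namespace Pool.Agent.Results.MP_6026f4_co.HalfPlane

open H439R3.Ap

/-- (1) If `1 ≤ s < 2 r` and `(r,s)` is not `(1,1)` or `(2,2)`, then `(a_n(r,s))` is not a Stieltjes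
moment sequence. (2) Neither is `(a_n(r,2r))` for `r = 1` and `r ≥ 3`, nor `(a_n(1,3))` and
`(a_n(1,4))`. (3) If `r ≥ 3`, `1 ≤ s ≤ 2 r` and `(r,s)` is not `(3,5)` or `(3,6)`, then
`(a_n(r,s))` is not infinitely log-convex. -/
theorem result :
    (∀ r s : ℕ, 1 ≤ s → s < 2 * r → (r, s) ≠ (1, 1) → (r, s) ≠ (2, 2) →
      ¬ IsStieltjes (apery r s)) ∧
    ((∀ r : ℕ, 3 ≤ r → ¬ IsStieltjes (apery r (2 * r))) ∧
      ¬ IsStieltjes (apery 1 2) ∧ ¬ IsStieltjes (apery 1 3) ∧ ¬ IsStieltjes (apery 1 4)) ∧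
    (∀ r s : ℕ, 3 ≤ r → 1 ≤ s → s ≤ 2 * r → (r, s) ≠ (3, 5) → (r, s) ≠ (3, 6) →
      ¬ InfLogConvex (apery r s)) :=
  ⟨fun _ _ hs h2 h11 h22 => stieltjes_lt hs h2 h11 h22,
   ⟨fun _ hr => stieltjes_ge3 (by omega) hr le_rfl, not12, not13, not14⟩,
   fun _ _ hr hs h2 h35 h36 => (region hs hr h2 h35 h36).1⟩

end Pool.Agent.Results.MP_6026f4_co.HalfPlane
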